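import Pool.Agent.N186.QC.Cd

/-!
# Smooth complete intersections of two quadrics in `ℙ⁵` without rational points over fields of
cohomological dimension one

Every field `k₀` of characteristic two has an extension field `k` whose absolute Galois group has
cohomological dimension one such that there is a smooth complete intersection `f = g = 0` of two
quadrics in `ℙ⁵` over `k` without `k`-rational point; even the quadric `f = 0` has no point.

The field `k` is a maximal algebraic extension of odd degree of `k₀(a₀, …, a₅, …)(c)` and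
`f = ∑ aᵢ xᵢ² + c (x₀ x₁ + x₂ x₃)`, `g = x₀² + x₂ x₃ + x₄ x₅`.
-/

set_option autoImplicit false

open MvPolynomial

namespace Pool.Agent.Results.MP_0f87c6_ag.NoPointCharTwo

/-- `M` is a discrete `G`-module: the stabiliser of every element of `M` is open in `G`. -/
def IsDiscreteModule (G M : Type*) [Group G] [TopologicalSpace G] [AddCommGroup M]
    [DistribMulAction G M] : Prop :=
  ∀ m : M, IsOpen {g : G | g • m = m}

/-- `f : G^(q+1) → M` is a homogeneous continuous `q`-cochain: it is continuous for the discrete
topology on `M` (that is, locally constant) and `G`-equivariant. -/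
def IsCochain {G M : Type*} [Group G] [TopologicalSpace G] [AddCommGroup M]
    [DistribMulAction G M] (q : ℕ) (f : (Fin (q + 1) → G) → M) : Prop :=
  IsLocallyConstant f ∧ ∀ (g : G) (x : Fin (q + 1) → G), f (fun i => g * x i) = g • f x

/-- The differential of homogeneous cochains:
`(df)(x₀, …, x_(q+1)) = ∑ⱼ (-1)ʲ f(x₀, …, x̂ⱼ, …, x_(q+1))`. -/
def diff {G M : Type*} [AddCommGroup M] (q : ℕ) (f : (Fin (q + 1) → G) → M) :
    (Fin (q + 2) → G) → M :=
  fun x => ∑ j : Fin (q + 2), (-1 : ℤ) ^ (j : ℕ) • f (fun i => x (j.succAbove i))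

/-- `H^(q+1)(G, M) = 0`: every continuous homogeneous `(q+1)`-cocycle is the differential of a
continuous homogeneous `q`-cochain. -/
def HSuccVanishes (G M : Type*) [Group G] [TopologicalSpace G] [AddCommGroup M]
    [DistribMulAction G M] (q : ℕ) : Prop :=
  ∀ f : (Fin (q + 2) → G) → M, IsCochain (q + 1) f → diff (q + 1) f = 0 →
    ∃ g : (Fin (q + 1) → G) → M, IsCochain q g ∧ diff q g = f

/-- The topological group `G` has cohomological dimension one: `H^q(G, M) = 0` for all `q ≥ 2` and
all discrete torsion `G`-modules `M`, and `H^1(G, M) ≠ 0` for some discrete torsion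
`G`-module `M`. -/
def HasCohomologicalDimensionOne (G : Type) [Group G] [TopologicalSpace G] : Prop :=
  (∀ (M : Type) [AddCommGroup M] [DistribMulAction G M], IsDiscreteModule G M →
    (∀ m : M, IsOfFinAddOrder m) → ∀ q : ℕ, 1 ≤ q → HSuccVanishes G M q) ∧
  ∃ (M : Type) (_ : AddCommGroup M) (_ : DistribMulAction G M), IsDiscreteModule G M ∧
    (∀ m : M, IsOfFinAddOrder m) ∧ ¬ HSuccVanishes G M 0

/-- The closed subscheme `f = g = 0` of `ℙⁿ` is a smooth complete intersection of two quadrics:
`f` and `g` are quadratic forms, and at every geometric point of `f = g = 0` the gradients of `f` and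
`g` are linearly independent. -/
def IsSmoothIntersectionOfTwoQuadrics {k : Type*} [Field k] {n : ℕ}
    (f g : MvPolynomial (Fin (n + 1)) k) : Prop :=
  f.IsHomogeneous 2 ∧ g.IsHomogeneous 2 ∧
    ∀ x : Fin (n + 1) → AlgebraicClosure k, x ≠ 0 → aeval x f = 0 → aeval x g = 0 →
      LinearIndependent (AlgebraicClosure k)
        ![fun i => aeval x (pderiv i f), fun i => aeval x (pderiv i g)]

/-- Every field of characteristic two has an extension field `k` of cohomological dimension one
with a smooth complete intersection `f = g = 0` of two quadrics in `ℙ⁵` over `k` that has no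
`k`-rational point. -/
theorem result (k₀ : Type) [Field k₀] [CharP k₀ 2] :
    ∃ (k : Type) (_ : Field k) (_ : Algebra k₀ k),
      HasCohomologicalDimensionOne Gal(SeparableClosure k/k) ∧
      ∃ f g : MvPolynomial (Fin (5 + 1)) k, IsSmoothIntersectionOfTwoQuadrics f g ∧
        ¬ ∃ x : Fin (5 + 1) → k, x ≠ 0 ∧ eval x f = 0 ∧ eval x g = 0 := by
  obtain ⟨k, hk, hk₀, hcd, f, g, hf, hg, hs, hn⟩ := Pool.Agent.N186.QC.main k₀
  exact ⟨k, hk, hk₀, hcd, f, g, ⟨hf, hg, hs⟩, fun ⟨x, hx, hx1, _⟩ => hn x hx hx1⟩

end Pool.Agent.Results.MP_0f87c6_ag.NoPointCharTwo
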